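import Pool.Agent.Helper15.KP.Defs

set_option autoImplicit false

open MeasureTheory Set Filter Topology

noncomputable section

namespace Pool.Agent.Helper31.KP

open Pool.Agent.Helper15.KP

theorem F_lower {n : ℕ} (c : Fin n → ℝ) (R : ℝ) (w : (Fin n → ℝ) × ℝ) :
    ‖w - (c, 0)‖ ^ 2 - R ≤ F c R w := by
  have h0 : 0 ≤ ∑ l, (w.1 l - c l) ^ 2 := Finset.sum_nonneg fun l _ => sq_nonneg _
  have h1 : ‖w - (c, 0)‖ ≤ Real.sqrt (∑ l, (w.1 l - c l) ^ 2 + w.2 ^ 2) := by
    rw [Prod.norm_def]
    refine max_le ?_ ?_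
    · refine (pi_norm_le_iff_of_nonneg (Real.sqrt_nonneg _)).2 fun l => ?_
      apply Real.le_sqrt_of_sq_le
      rw [Real.norm_eq_abs, sq_abs]
      have h2 := Finset.single_le_sum (f := fun l => (w.1 l - c l) ^ 2)
        (fun l _ => sq_nonneg _) (Finset.mem_univ l)
      have h3 := sq_nonneg w.2
      simp only [Prod.fst_sub, Pi.sub_apply] at h2 ⊢
      linarith
    · apply Real.le_sqrt_of_sq_le
      rw [Real.norm_eq_abs, sq_abs]
      simp only [Prod.snd_sub, sub_zero]
      linarith
  have h4 : ‖w - (c, 0)‖ ^ 2 ≤ ∑ l, (w.1 l - c l) ^ 2 + w.2 ^ 2 := by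
    have h5 := pow_le_pow_left₀ (norm_nonneg _) h1 2
    rwa [Real.sq_sqrt (by positivity)] at h5
  unfold F
  linarith

theorem tendsto_F {n : ℕ} (c : Fin n → ℝ) (R : ℝ) :
    Tendsto (F c R) (cocompact ((Fin n → ℝ) × ℝ)) atTop := by
  have h1 : Tendsto (fun w : (Fin n → ℝ) × ℝ => ‖w - (c, 0)‖)
      (cocompact ((Fin n → ℝ) × ℝ)) atTop := by
    have h2 : Tendsto (fun w : (Fin n → ℝ) × ℝ => w - (c, 0))
        (cocompact ((Fin n → ℝ) × ℝ)) (cocompact ((Fin n → ℝ) × ℝ)) :=
      (Homeomorph.subRight ((c, 0) : (Fin n → ℝ) × ℝ)).isClosedEmbedding.tendsto_cocompact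
    exact (tendsto_norm_cocompact_atTop).comp h2
  have h3 : Tendsto (fun w : (Fin n → ℝ) × ℝ => ‖w - (c, 0)‖ ^ 2 - R)
      (cocompact ((Fin n → ℝ) × ℝ)) atTop :=
    tendsto_atTop_add_const_right _ (-R) ((tendsto_pow_atTop two_ne_zero).comp h1)
  exact tendsto_atTop_mono (F_lower c R) h3

theorem continuous_F {n : ℕ} (c : Fin n → ℝ) (R : ℝ) : Continuous (F c R) := by
  unfold F
  fun_prop

theorem hcs_comp {X : Type*} [TopologicalSpace X] [R1Space X] {Φ : ℝ → ℝ}
    (hΦ : HasCompactSupport Φ) {G : X → ℝ} (hG : Tendsto G (cocompact X) atTop) :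
    HasCompactSupport (fun x => Φ (G x)) := by
  rw [hasCompactSupport_iff_eventuallyEq, Filter.coclosedCompact_eq_cocompact] at hΦ ⊢
  exact (hΦ.filter_mono _root_.atTop_le_cocompact).comp_tendsto hG

/-- The inverse of the affine change of variables of a cell. -/
def chart {m : ℕ} (M : Matrix (Fin m) (Fin m) ℝ) (hM : M.det ≠ 0) (h : Fin m → ℝ) :
    ((Fin m → ℝ) × ℝ) ≃ₜ ((Fin m → ℝ) × ℝ) where
  toFun z := (M⁻¹.mulVec (z.1 + h), z.2)
  invFun w := (M.mulVec w.1 - h, w.2)
  left_inv z := by
    have h1 : M * M⁻¹ = 1 := Matrix.mul_nonsing_inv M (Ne.isUnit hM)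
    ext1
    · simp [Matrix.mulVec_mulVec, h1]
    · rfl
  right_inv w := by
    have h1 : M⁻¹ * M = 1 := Matrix.nonsing_inv_mul M (Ne.isUnit hM)
    ext1
    · simp [Matrix.mulVec_mulVec, h1]
    · rfl
  continuous_toFun := by
    refine Continuous.prodMk ?_ continuous_snd
    exact Continuous.matrix_mulVec continuous_const (by fun_prop)
  continuous_invFun := by
    refine Continuous.prodMk ?_ continuous_snd
    exact (Continuous.matrix_mulVec continuous_const continuous_fst).sub continuous_const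

theorem map_chart_symm {m : ℕ} (M : Matrix (Fin m) (Fin m) ℝ) (hM : M.det ≠ 0)
    (h : Fin m → ℝ) :
    Measure.map (chart M hM h).symm (volume : Measure ((Fin m → ℝ) × ℝ)) =
      ENNReal.ofReal |M.det|⁻¹ • volume := by
  have h1 : ((chart M hM h).symm : (Fin m → ℝ) × ℝ → (Fin m → ℝ) × ℝ) =
      (fun w => w - (h, 0)) ∘ (Prod.map (Matrix.toLin' M) (id : ℝ → ℝ)) := by
    funext w
    ext1
    · simp [chart]
    · simp [chart]
  have hm : Measurable (Matrix.toLin' M : (Fin m → ℝ) → (Fin m → ℝ)) :=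
    (Matrix.toLin' M).continuous_of_finiteDimensional.measurable
  rw [h1, ← Measure.map_map (by fun_prop) (hm.prodMap measurable_id)]
  have h2 : Measure.map (Prod.map (Matrix.toLin' M) (id : ℝ → ℝ))
      (volume : Measure ((Fin m → ℝ) × ℝ)) = ENNReal.ofReal |M.det|⁻¹ • volume := by
    rw [Measure.volume_eq_prod, ← Measure.map_prod_map _ _ hm measurable_id,
      Real.map_matrix_volume_pi_eq_smul_volume_pi hM]
    rw [Measure.map_id, Measure.prod_smul_left, abs_inv]
  rw [h2, Measure.map_smul]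
  have : (volume : Measure ((Fin m → ℝ) × ℝ)).IsAddHaarMeasure :=
    Measure.prod.instIsAddHaarMeasure volume volume
  congr 1
  exact (measurePreserving_sub_right volume ((h, 0) : (Fin m → ℝ) × ℝ)).map_eq

theorem integral_chart {m : ℕ} (M : Matrix (Fin m) (Fin m) ℝ) (hM : M.det ≠ 0)
    (h : Fin m → ℝ) (φ : (Fin m → ℝ) × ℝ → ℝ) :
    ∫ w, φ ((chart M hM h).symm w) = |M.det|⁻¹ * ∫ z, φ z := by
  have h1 : ∫ w, φ ((chart M hM h).symm w) =
      ∫ z, φ z ∂(Measure.map (chart M hM h).symm volume) :=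
    ((chart M hM h).symm.measurableEmbedding.integral_map φ).symm
  rw [h1, map_chart_symm, integral_smul_measure, ENNReal.toReal_ofReal (by positivity),
    smul_eq_mul]

/-- Split off the first coordinate. -/
def splt (m : ℕ) : ((Fin (m + 1) → ℝ) × ℝ) ≃ᵐ ℝ × ((Fin m → ℝ) × ℝ) :=
  ((MeasurableEquiv.piFinSuccAbove (fun _ => ℝ) 0).prodCongr (MeasurableEquiv.refl ℝ)).trans
    MeasurableEquiv.prodAssoc

theorem splt_symm_apply (m : ℕ) (s : ℝ) (z : (Fin m → ℝ) × ℝ) :
    (splt m).symm (s, z) = (Fin.cons s z.1, z.2) := by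
  rw [MeasurableEquiv.symm_apply_eq]
  rfl

theorem mp_splt (m : ℕ) : MeasurePreserving (splt m) volume volume := by
  have h1 : MeasurePreserving (MeasurableEquiv.piFinSuccAbove (fun _ : Fin (m + 1) => ℝ) 0)
      volume volume := volume_preserving_piFinSuccAbove (fun _ : Fin (m + 1) => ℝ) 0
  have h2 := h1.prod (MeasurePreserving.id (volume : Measure ℝ))
  exact (volume_preserving_prodAssoc (α₁ := ℝ) (β₁ := Fin m → ℝ) (γ₁ := ℝ)).comp h2

theorem integral_splt {m : ℕ} (φ : (Fin (m + 1) → ℝ) × ℝ → ℝ) (hφ : Integrable φ) :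
    ∫ z, φ z = ∫ z : (Fin m → ℝ) × ℝ, ∫ s : ℝ, φ (Fin.cons s z.1, z.2) := by
  have h1 : ∫ z, φ z = ∫ z : ℝ × ((Fin m → ℝ) × ℝ), φ ((splt m).symm z) :=
    ((mp_splt m).symm.integral_comp' φ).symm
  have h2 : Integrable (fun z : ℝ × ((Fin m → ℝ) × ℝ) => φ ((splt m).symm z)) :=
    ((mp_splt m).symm.integrable_comp_emb (splt m).symm.measurableEmbedding).2 hφ
  rw [h1, Measure.volume_eq_prod, integral_prod_symm _ h2]
  simp only [splt_symm_apply]

theorem cell_wall {m : ℕ} (Φ : ℝ → ℝ) (hΦ : ContDiff ℝ 1 Φ) (hs : HasCompactSupport Φ)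
    (M : Matrix (Fin (m + 1)) (Fin (m + 1)) ℝ) (hM : M.det ≠ 0) (h c : Fin (m + 1) → ℝ) (R : ℝ) :
    ∫ w in {w : (Fin (m + 1) → ℝ) × ℝ | ∀ a, h a ≤ M.mulVec w.1 a},
        deriv Φ (F c R w) * (-2 * ∑ l, (w.1 l - c l) * (M⁻¹.mulVec (Pi.single 0 1)) l)
      = |M.det|⁻¹ * ∫ w in {w : (Fin m → ℝ) × ℝ | ∀ a, 0 ≤ w.1 a},
          Φ (F c R (M⁻¹.mulVec (Fin.cons 0 w.1 + h), w.2)) := by
  classical
  set u : Fin (m + 1) → ℝ := M⁻¹.mulVec (Pi.single 0 1) with hu
  set A := chart M hM h with hA
  set f : (Fin (m + 1) → ℝ) × ℝ → ℝ :=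
    fun w => deriv Φ (F c R w) * (-2 * ∑ l, (w.1 l - c l) * u l) with hf
  set S : Set ((Fin (m + 1) → ℝ) × ℝ) := {z | ∀ a, 0 ≤ z.1 a} with hS
  set S' : Set ((Fin m → ℝ) × ℝ) := {z | ∀ a, 0 ≤ z.1 a} with hS'
  have hSm : MeasurableSet S := by
    rw [hS, ofPred_forall]
    exact MeasurableSet.iInter fun a => measurableSet_le measurable_const (by fun_prop)
  have hSm' : MeasurableSet S' := by
    rw [hS', ofPred_forall]
    exact MeasurableSet.iInter fun a => measurableSet_le measurable_const (by fun_prop)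
  have hdc : Continuous (deriv Φ) := hΦ.continuous_deriv le_rfl
  -- compact supports
  have hAc : Tendsto (fun z => F c R (A z)) (cocompact _) atTop :=
    (tendsto_F c R).comp A.isClosedEmbedding.tendsto_cocompact
  have hgc : HasCompactSupport (fun z => f (A z)) := by
    have h1 : HasCompactSupport (fun z => deriv Φ (F c R (A z))) := hcs_comp hs.deriv hAc
    exact h1.mul_right
  have hgcont : Continuous (fun z => f (A z)) := by
    have h2 : Continuous f := by
      rw [hf]
      refine (hdc.comp (continuous_F c R)).mul ?_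
      fun_prop
    exact h2.comp A.continuous
  have hgint : Integrable (S.indicator (fun z => f (A z))) :=
    (hgcont.integrable_of_hasCompactSupport hgc).indicator hSm
  -- first step: change of variables
  have hset : {w : (Fin (m + 1) → ℝ) × ℝ | ∀ a, h a ≤ M.mulVec w.1 a} = A.symm ⁻¹' S := by
    ext w
    simp [hS, hA, chart]
  have hmeas : MeasurableSet (A.symm ⁻¹' S) := A.symm.measurable hSm
  rw [hset, ← integral_indicator hmeas]
  have h3 : (fun w => (A.symm ⁻¹' S).indicator f w) =
      fun w => (S.indicator (fun z => f (A z))) (A.symm w) := by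
    funext w
    by_cases hw : A.symm w ∈ S
    · rw [indicator_of_mem hw, indicator_of_mem (show w ∈ A.symm ⁻¹' S from hw)]
      simp
    · rw [indicator_of_notMem hw, indicator_of_notMem (show w ∉ A.symm ⁻¹' S from hw)]
  rw [show (∫ w, (A.symm ⁻¹' S).indicator f w) =
    ∫ w, (S.indicator (fun z => f (A z))) (A.symm w) from congrArg _ h3]
  rw [integral_chart M hM h]
  congr 1
  -- second step: Fubini and the fundamental theorem of calculus
  rw [integral_splt _ hgint, ← integral_indicator hSm']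
  refine integral_congr_ae (Eventually.of_forall fun z => ?_)
  by_cases hz : z ∈ S'
  · rw [indicator_of_mem hz]
    have h4 : (fun s : ℝ => S.indicator (fun z => f (A z)) (Fin.cons s z.1, z.2)) =
        (Ici (0 : ℝ)).indicator (fun s => f (A (Fin.cons s z.1, z.2))) := by
      funext s
      by_cases h5 : s ∈ Ici (0 : ℝ)
      · rw [indicator_of_mem h5, indicator_of_mem]
        intro a
        refine Fin.cases ?_ (fun a => ?_) a
        · simpa using h5
        · simpa using hz a
      · rw [indicator_of_notMem h5, indicator_of_notMem]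
        intro h6
        exact h5 (by simpa using h6 0)
    -- the function of one variable
    set q : ℝ → ℝ := fun s => F c R (A (Fin.cons s z.1, z.2)) with hq
    have hline : ∀ s : ℝ, A (Fin.cons s z.1, z.2) =
        (M⁻¹.mulVec (Fin.cons 0 z.1 + h) + s • u, z.2) := by
      intro s
      have h7 : (Fin.cons s z.1 : Fin (m + 1) → ℝ) + h =
          (Fin.cons 0 z.1 + h) + s • Pi.single 0 1 := by
        funext a
        refine Fin.cases ?_ (fun a => ?_) a
        · simp [add_comm]
        · simp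
      show (M⁻¹.mulVec ((Fin.cons s z.1 : Fin (m + 1) → ℝ) + h), z.2) = _
      rw [h7, Matrix.mulVec_add, Matrix.mulVec_smul]
    have hqd : ∀ s : ℝ, HasDerivAt q
        (2 * ∑ l, ((A (Fin.cons s z.1, z.2)).1 l - c l) * u l) s := by
      intro s
      have h8 : q = fun s : ℝ => ∑ l, (M⁻¹.mulVec (Fin.cons 0 z.1 + h) l + s * u l - c l) ^ 2 +
          z.2 ^ 2 - R := by
        funext s
        simp only [hq, hline, F, Pi.add_apply, Pi.smul_apply, smul_eq_mul]
      rw [h8]
      have h9 : HasDerivAt (fun s : ℝ =>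
          ∑ l, (M⁻¹.mulVec (Fin.cons 0 z.1 + h) l + s * u l - c l) ^ 2)
          (∑ l, 2 * (M⁻¹.mulVec (Fin.cons 0 z.1 + h) l + s * u l - c l) * u l) s := by
        refine HasDerivAt.fun_sum fun l _ => ?_
        have h10 : HasDerivAt (fun s : ℝ =>
            M⁻¹.mulVec (Fin.cons 0 z.1 + h) l + s * u l - c l) (u l) s := by
          have := (((hasDerivAt_id s).mul_const (u l)).const_add
            (M⁻¹.mulVec (Fin.cons 0 z.1 + h) l)).sub_const (c l)
          simpa using this
        have h11 := h10.fun_pow 2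
        simpa using h11
      have h12 := (h9.add_const (z.2 ^ 2)).sub_const R
      refine h12.congr_deriv ?_
      rw [hline, Finset.mul_sum]
      refine Finset.sum_congr rfl fun l _ => ?_
      simp only [Pi.add_apply, Pi.smul_apply, smul_eq_mul]
      ring
    have hqc : ContDiff ℝ 1 q := by
      have h8 : q = fun s : ℝ => ∑ l, (M⁻¹.mulVec (Fin.cons 0 z.1 + h) l + s * u l - c l) ^ 2 +
          z.2 ^ 2 - R := by
        funext s
        simp only [hq, hline, F, Pi.add_apply, Pi.smul_apply, smul_eq_mul]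
      rw [h8]
      fun_prop
    have hΦq : ContDiff ℝ 1 (fun s => Φ (q s)) := hΦ.comp hqc
    have hcl : Topology.IsClosedEmbedding
        (fun s : ℝ => ((Fin.cons s z.1, z.2) : (Fin (m + 1) → ℝ) × ℝ)) := by
      have hcont : Continuous
          (fun s : ℝ => ((Fin.cons s z.1, z.2) : (Fin (m + 1) → ℝ) × ℝ)) := by
        refine Continuous.prodMk ?_ continuous_const
        refine continuous_pi fun a => ?_
        refine Fin.cases ?_ (fun a => ?_) a
        · simpa using continuous_id'
        · simpa using continuous_const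
      refine Topology.IsClosedEmbedding.of_continuous_injective_isClosedMap hcont ?_ ?_
      · intro s t hst
        have := congrFun (congrArg Prod.fst hst) 0
        simpa using this
      · intro C hC
        have h13 : (fun s : ℝ => ((Fin.cons s z.1, z.2) : (Fin (m + 1) → ℝ) × ℝ)) '' C =
            {p : (Fin (m + 1) → ℝ) × ℝ | p.1 0 ∈ C ∧ p = (Fin.cons (p.1 0) z.1, z.2)} := by
          ext p
          constructor
          · rintro ⟨s, hs1, rfl⟩
            exact ⟨by simpa using hs1, by simp⟩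
          · rintro ⟨h14, h15⟩
            exact ⟨p.1 0, h14, h15.symm⟩
        rw [h13]
        refine IsClosed.inter (hC.preimage (by fun_prop)) ?_
        refine isClosed_eq continuous_id ?_
        exact hcont.comp (f := fun p : (Fin (m + 1) → ℝ) × ℝ => p.1 0) (by fun_prop)
    have hΦs : HasCompactSupport (fun s => Φ (q s)) :=
      hcs_comp hs (hAc.comp hcl.tendsto_cocompact)
    have h16 := HasCompactSupport.integral_Ioi_deriv_eq hΦq hΦs 0
    have h17 : ∀ s, deriv (fun s => Φ (q s)) s = - f (A (Fin.cons s z.1, z.2)) := by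
      intro s
      have h18 : HasDerivAt (fun s => Φ (q s)) (deriv Φ (q s) *
          (2 * ∑ l, ((A (Fin.cons s z.1, z.2)).1 l - c l) * u l)) s :=
        HasDerivAt.comp s ((hΦ.differentiable one_ne_zero (q s)).hasDerivAt) (hqd s)
      rw [h18.deriv, hf]
      simp only [hq]
      ring
    show (∫ s : ℝ, S.indicator (fun z => f (A z)) (Fin.cons s z.1, z.2)) = _
    rw [h4, integral_indicator measurableSet_Ici, integral_Ici_eq_integral_Ioi]
    have h19 : ∫ s in Ioi (0 : ℝ), f (A (Fin.cons s z.1, z.2)) =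
        - ∫ s in Ioi (0 : ℝ), deriv (fun s => Φ (q s)) s := by
      rw [← integral_neg]
      refine integral_congr_ae (Eventually.of_forall fun s => ?_)
      simp only [h17, neg_neg]
    rw [h19, h16, neg_neg]
    rfl
  · rw [indicator_of_notMem hz]
    have h4 : (fun s : ℝ => S.indicator (fun z => f (A z)) (Fin.cons s z.1, z.2)) =
        fun _ => 0 := by
      funext s
      rw [indicator_of_notMem]
      intro h5
      apply hz
      intro a
      simpa using h5 a.succ
    show (∫ s : ℝ, S.indicator (fun z => f (A z)) (Fin.cons s z.1, z.2)) = _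
    rw [h4]
    simp

end Pool.Agent.Helper31.KP
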